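import Pool.Agent.Helper15.EP.St

/-!
# Module CN1 of project EP: the number of degree patterns
-/

set_option autoImplicit false

namespace Pool.Agent.Helper88.EP

open Polynomial Pool.Agent.Helper15.FC Pool.Agent.Helper15.EP

theorem length_tuple (k : ℕ) : ∀ n : ℕ,
    (List.Nat.antidiagonalTuple (k + 1) n).length = (n + k).choose k := by
  induction k with
  | zero =>
    intro n
    rw [zero_add, List.Nat.antidiagonalTuple_one]
    simp
  | succ k ih =>
    intro n
    have h1 : (List.Nat.antidiagonalTuple (k + 1 + 1) n).length
        = ((List.Nat.antidiagonal n).map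
            (fun ni : ℕ × ℕ => (List.Nat.antidiagonalTuple (k + 1) ni.2).length)).sum := by
      show ((List.Nat.antidiagonal n).flatMap fun ni =>
        (List.Nat.antidiagonalTuple (k + 1) ni.2).map fun x => (Fin.cons ni.1 x : Fin (k + 1 + 1) → ℕ)).length = _
      rw [List.length_flatMap]
      congr 1
      apply List.map_congr_left
      intro ni _
      rw [List.length_map]
    rw [h1]
    have h2 : ((List.Nat.antidiagonal n).map
        (fun ni : ℕ × ℕ => (List.Nat.antidiagonalTuple (k + 1) ni.2).length)).sum
        = ∑ ni ∈ Finset.HasAntidiagonal.antidiagonal n, (ni.2 + k).choose k := by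
      simp only [ih]
      rfl
    rw [h2, ← Finset.Nat.sum_antidiagonal_swap]
    simp only [Prod.snd_swap]
    rw [Finset.Nat.sum_antidiagonal_eq_sum_range_succ_mk]
    have h3 := Nat.sum_range_add_choose n k
    rw [show n + (k + 1) = n + k + 1 by ring, ← h3]

theorem hCN1 : StCN1 := by
  intro k n
  exact length_tuple k n

end Pool.Agent.Helper88.EP
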